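import Pool.Agent.H970F.Char

set_option autoImplicit false

namespace H970F

open MeasureTheory Complex ComplexConjugate Finset
open scoped BigOperators Real ENNReal

/-- `F` maps pairs of characteristic functions to characteristic functions. -/
def Adm (F : ℂ → ℂ → ℂ) : Prop :=
  ∀ φ ψ : ℝ → ℂ, IsCharFn φ → IsCharFn ψ → IsCharFn fun ξ => F (φ ξ) (ψ ξ)

lemma Adm.one {F : ℂ → ℂ → ℂ} (hF : Adm F) : F 1 1 = 1 := by
  have h := (hF _ _ isCharFn_one isCharFn_one).zero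
  exact h

/-- Continuity at the interior points. -/
lemma Adm.cont {F : ℂ → ℂ → ℂ} (hF : Adm F) {x y : ℂ} (hx : ‖x‖ < 1) (hy : ‖y‖ < 1) {ε : ℝ}
    (hε : 0 < ε) : ∃ δ > 0, ∀ x' y' : ℂ, ‖x' - x‖ ≤ δ → ‖y' - y‖ ≤ δ → ‖F x' y' - F x y‖ ≤ ε := by
  obtain ⟨r, hr, hr1⟩ := exists_between (max_lt hx hy)
  have hxr : ‖x‖ < r := (le_max_left _ _).trans_lt hr
  have hyr : ‖y‖ < r := (le_max_right _ _).trans_lt hr
  have hr0 : 0 < r := (norm_nonneg x).trans_lt hxr
  have hg := hF _ _ isCharFn_cos isCharFn_cos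
  set g : ℝ → ℂ := fun ξ => F ((Real.cos ξ : ℝ) : ℂ) ((Real.cos ξ : ℝ) : ℂ) with hgdef
  have hgc := hg.continuous
  have hg0 := hg.zero
  -- choose `s0` small
  obtain ⟨η, hη, h1⟩ : ∃ η > 0, ∀ s : ℝ, |s| < η → 2 * (1 - (g s).re) ≤ ε ^ 2 := by
    have hc : Continuous fun s => 2 * (1 - (g s).re) :=
      continuous_const.mul (continuous_const.sub (Complex.continuous_re.comp hgc))
    have h0 : 2 * (1 - (g 0).re) < ε ^ 2 := by rw [hg0]; simp; positivity
    have := hc.continuousAt.eventually_lt continuousAt_const h0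
    rw [Metric.eventually_nhds_iff] at this
    obtain ⟨η, hη, h⟩ := this
    exact ⟨η, hη, fun s hs => (h (by rwa [Real.dist_eq, sub_zero])).le⟩
  obtain ⟨η', hη', h2⟩ : ∃ η' > 0, ∀ s : ℝ, |s| < η' → r < Real.cos s := by
    have h0 : r < Real.cos 0 := by rw [Real.cos_zero]; exact hr1
    have := (continuousAt_const (y := r)).eventually_lt Real.continuous_cos.continuousAt h0
    rw [Metric.eventually_nhds_iff] at this
    obtain ⟨η, hη, h⟩ := this
    exact ⟨η, hη, fun s hs => h (by rwa [Real.dist_eq, sub_zero])⟩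
  set s0 : ℝ := min (min η η' / 2) 1 with hs0
  have hs0p : 0 < s0 := lt_min (by have := lt_min hη hη'; linarith) one_pos
  have hs0a : |s0| = s0 := abs_of_pos hs0p
  have hm : min η η' / 2 < min η η' := by have := lt_min hη hη'; linarith
  have hs0η : |s0| < η := by
    rw [hs0a]; exact ((min_le_left _ _).trans_lt hm).trans_le (min_le_left _ _)
  have hs0η' : |s0| < η' := by
    rw [hs0a]; exact ((min_le_left _ _).trans_lt hm).trans_le (min_le_right _ _)
  set κ : ℝ := 1 - Real.cos s0 with hκ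
  have hκ0 : 0 < κ := by
    have : Real.cos s0 < 1 := by
      have h := Real.cos_lt_cos_of_nonneg_of_le_pi le_rfl
        (by have := min_le_right (min η η' / 2) (1 : ℝ); have := Real.pi_gt_three; linarith) hs0p
      rwa [Real.cos_zero] at h
    linarith
  have hκ1 : r < 1 - κ := by rw [hκ]; linarith [h2 s0 hs0η']
  have hκlt : κ < 1 := by linarith
  -- choose `D`
  obtain ⟨D, hD⟩ : ∃ D : ℕ, 2 ≤ D ∧ r ≤ (1 - κ) * (((D : ℝ) - 1) / D) := by
    have hp : 0 < 1 - κ - r := by linarith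
    obtain ⟨n, hn⟩ := exists_nat_gt (1 / (1 - κ - r))
    refine ⟨n + 2, by omega, ?_⟩
    have hn0 : (0 : ℝ) < (n : ℝ) + 2 := by positivity
    push_cast
    rw [mul_div_assoc', le_div_iff₀ hn0]
    have h3 : 1 < (n : ℝ) * (1 - κ - r) := by rwa [div_lt_iff₀ hp] at hn
    nlinarith
  obtain ⟨hD2, hDr⟩ := hD
  have hρ : 0 < ((D : ℝ) - 1) / D := by
    have : (2 : ℝ) ≤ D := by exact_mod_cast hD2
    exact div_pos (by linarith) (by linarith)
  refine ⟨κ * (((D : ℝ) - 1) / D), mul_pos hκ0 hρ, fun x' y' hx' hy' => ?_⟩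
  obtain ⟨φ, hφ, a1, a2, a3⟩ := exists_two hD2 hκ0 hκlt (hxr.le.trans hDr) hx'
  obtain ⟨ψ, hψ, b1, b2, b3⟩ := exists_two hD2 hκ0 hκlt (hyr.le.trans hDr) hy'
  have h4 := (hF _ _ hφ hψ).diff (π / (2 * D + 1 : ℕ)) π
  simp only [a1, a2, a3, b1, b2, b3] at h4
  have h5 : F ((1 - κ : ℝ) : ℂ) ((1 - κ : ℝ) : ℂ) = g s0 := by
    simp only [hgdef, hκ]; congr 2 <;> ring
  rw [h5] at h4
  have h6 := h4.trans (h1 s0 hs0η)
  exact abs_le_of_sq_le_sq' h6 hε.le |>.2

/-- The Fourier coefficients of a periodic characteristic function are nonnegative. -/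
lemma coeff_nonneg {f : ℝ → ℂ} (hf : IsCharFn f) (h1 : f (2 * π) = 1) {L : ℕ} (hL : 0 < L)
    (m : ℤ) : ∃ c : ℝ, 0 ≤ c ∧
      (∑ j ∈ range L, f (2 * π * j / L) * ee L j (-m)) / (L : ℂ) = c := by
  obtain ⟨μ, hμ, hf⟩ := hf
  have hLr : (0 : ℝ) < L := by exact_mod_cast hL
  have hLc : (L : ℂ) ≠ 0 := by exact_mod_cast hLr.ne'
  have hae : ∀ᵐ t : ℝ ∂μ, cexp ((2 * π : ℝ) * t * I) = 1 := by
    have hi : Integrable (fun t : ℝ => (cexp ((2 * π : ℝ) * t * I)).re) μ := (integrable_ex μ _).re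
    have h2 : ∫ t : ℝ, (1 - (cexp ((2 * π : ℝ) * t * I)).re) ∂μ = 0 := by
      rw [integral_sub (integrable_const _) hi, integral_const]
      have : ∫ t : ℝ, (cexp ((2 * π : ℝ) * t * I)).re ∂μ = (f (2 * π)).re := by
        rw [hf]
        exact integral_re (integrable_ex μ (2 * π))
      rw [this, h1]; simp
    have h3 : ∀ t : ℝ, 0 ≤ 1 - (cexp ((2 * π : ℝ) * t * I)).re := fun t => by
      have := (Complex.re_le_norm (cexp ((2 * π : ℝ) * t * I)))
      rw [norm_ex] at this; linarith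
    have hi' : Integrable (fun t : ℝ => 1 - (cexp ((2 * π : ℝ) * t * I)).re) μ :=
      (integrable_const _).sub hi
    have h4 := (integral_eq_zero_iff_of_nonneg h3 hi').mp h2
    filter_upwards [h4] with t ht
    have h5 : (cexp ((2 * π : ℝ) * t * I)).re = 1 := by
      have : 1 - (cexp ((2 * π : ℝ) * t * I)).re = 0 := ht
      linarith
    have h6 : ‖cexp ((2 * π : ℝ) * t * I)‖ ^ 2 = 1 := by rw [norm_ex]; norm_num
    rw [← Complex.normSq_eq_norm_sq, Complex.normSq_apply, h5] at h6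
    have h7 : (cexp ((2 * π : ℝ) * t * I)).im = 0 := by nlinarith
    exact Complex.ext (by simpa using h5) (by simpa using h7)
  -- the integrand
  set w : ℝ → ℂ := fun t => cexp (((2 * π * (t - m) / L : ℝ) : ℂ) * I) with hw
  have e1 : (∑ j ∈ range L, f (2 * π * j / L) * ee L j (-m)) / (L : ℂ)
      = ∫ t, (∑ j ∈ range L, w t ^ j) / (L : ℂ) ∂μ := by
    have hint : ∀ j ∈ range L, Integrable (fun t : ℝ => w t ^ j) μ := by
      intro j _
      refine (integrable_const (1 : ℝ)).mono (by fun_prop) (ae_of_all _ fun t => ?_)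
      rw [norm_pow, hw]
      simp only [Complex.norm_exp_ofReal_mul_I]; simp
    rw [integral_div, integral_finsetSum _ hint]
    congr 1
    refine Finset.sum_congr rfl fun j _ => ?_
    rw [hf, ← integral_mul_const]
    refine integral_congr_ae (ae_of_all _ fun t => ?_)
    simp only [hw, ee]
    rw [← Complex.exp_nat_mul, ← Complex.exp_add]
    congr 1
    push_cast
    field_simp
    ring
  have e2 : ∀ᵐ t : ℝ ∂μ, (∑ j ∈ range L, w t ^ j) / (L : ℂ) = ((if w t = 1 then 1 else 0 : ℝ) : ℂ) := by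
    filter_upwards [hae] with t ht
    split_ifs with h
    · rw [h]; simp [hLc]
    · rw [geom_sum_eq h]
      have : w t ^ L = 1 := by
        simp only [hw]
        rw [← Complex.exp_nat_mul]
        have : (L : ℂ) * (((2 * π * (t - m) / L : ℝ) : ℂ) * I)
            = (2 * π : ℝ) * t * I + (-m : ℤ) * (2 * π * I) := by
          push_cast; field_simp; ring
        rw [this, Complex.exp_add, ht, Complex.exp_int_mul_two_pi_mul_I, mul_one]
      rw [this]; simp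
  refine ⟨∫ t, (if w t = 1 then 1 else 0 : ℝ) ∂μ, integral_nonneg fun t => by
    show (0 : ℝ) ≤ if w t = 1 then 1 else 0
    split_ifs <;> norm_num, ?_⟩
  rw [e1, integral_congr_ae e2]
  exact integral_complex_ofReal

/-- The expectation of a function. -/
noncomputable def Ex (D Q : ℕ) {K : ℕ} (z : Fin K → ℂ) (g : ℕ → ℂ) : ℂ :=
  (∑ j ∈ range (Q ^ K), g j * riesz D Q z j) / ((Q ^ K : ℕ) : ℂ)

lemma Ex_add (D Q : ℕ) {K : ℕ} (z : Fin K → ℂ) (g h : ℕ → ℂ) :
    Ex D Q z (fun j => g j + h j) = Ex D Q z g + Ex D Q z h := by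
  simp only [Ex, add_mul, Finset.sum_add_distrib, add_div]

lemma Ex_mul (D Q : ℕ) {K : ℕ} (z : Fin K → ℂ) (c : ℂ) (g : ℕ → ℂ) :
    Ex D Q z (fun j => c * g j) = c * Ex D Q z g := by
  simp only [Ex, mul_assoc, ← Finset.mul_sum, mul_div_assoc]

lemma Ex_sum (D Q : ℕ) {K : ℕ} (z : Fin K → ℂ) {ι : Type*} (s : Finset ι) (g : ι → ℕ → ℂ) :
    Ex D Q z (fun j => ∑ i ∈ s, g i j) = ∑ i ∈ s, Ex D Q z (g i) := by
  simp only [Ex, Finset.sum_mul, ← Finset.sum_div]
  rw [Finset.sum_comm]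

lemma Ex_one {D Q : ℕ} (hD : 0 < D) (hQ : D < Q) {K : ℕ} (z : Fin K → ℂ) :
    Ex D Q z (fun _ => 1) = 1 := by
  have h := moment D Q hQ z (fun _ => 0) (by simp)
  simp only [zero_mul, Finset.sum_const_zero, ee_zero, cf_zero hD, Finset.prod_const_one] at h
  exact h

lemma sum_single {K : ℕ} (Q : ℕ) (i : Fin K) :
    ∑ k, (if k = i then (1 : ℤ) else 0) * (Q : ℤ) ^ (k : ℕ) = (Q : ℤ) ^ (i : ℕ) := by
  simp

lemma Ex_fst {D Q : ℕ} (hD : 0 < D) (hQ : D < Q) {K : ℕ} (z : Fin K → ℂ) (i : Fin K) :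
    Ex D Q z (fun j => ee (Q ^ K) j ((Q : ℤ) ^ (i : ℕ))) = ((D - 1 : ℝ) / D : ℝ) * z i := by
  have h := moment D Q hQ z (fun k => if k = i then 1 else 0) (fun k => by split_ifs <;> simp)
  rw [sum_single, Finset.prod_eq_single i] at h
  · rw [if_pos rfl, cf_one hD] at h
    exact h
  · intro b _ hb; rw [if_neg hb, cf_zero hD]
  · intro h; exact absurd (Finset.mem_univ _) h

lemma Ex_fst_neg {D Q : ℕ} (hD : 0 < D) (hQ : D < Q) {K : ℕ} (z : Fin K → ℂ) (i : Fin K) :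
    Ex D Q z (fun j => ee (Q ^ K) j (-(Q : ℤ) ^ (i : ℕ)))
      = ((D - 1 : ℝ) / D : ℝ) * conj (z i) := by
  have h := moment D Q hQ z (fun k => -(if k = i then 1 else 0)) (fun k => by split_ifs <;> simp)
  simp only [neg_mul, Finset.sum_neg_distrib] at h
  rw [sum_single, Finset.prod_eq_single i] at h
  · rw [if_pos rfl, cf_neg_one hD] at h
    exact h
  · intro b _ hb; rw [if_neg hb, neg_zero, cf_zero hD]
  · intro h; exact absurd (Finset.mem_univ _) h

lemma Ex_snd {D Q : ℕ} (hD : 0 < D) (hQ : D < Q) {K : ℕ} (z : Fin K → ℂ) {i l : Fin K}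
    (hil : i ≠ l) :
    Ex D Q z (fun j => ee (Q ^ K) j ((Q : ℤ) ^ (i : ℕ) - (Q : ℤ) ^ (l : ℕ)))
      = (((D - 1 : ℝ) / D : ℝ) * z i) * (((D - 1 : ℝ) / D : ℝ) * conj (z l)) := by
  have h := moment D Q hQ z (fun k => (if k = i then 1 else 0) - (if k = l then 1 else 0))
    (fun k => by
      by_cases h1 : k = i
      · rw [if_pos h1, if_neg (by rw [h1]; exact hil)]; simp
      · rw [if_neg h1]; split_ifs <;> simp)
  simp only [sub_mul, Finset.sum_sub_distrib] at h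
  rw [sum_single, sum_single, Finset.prod_eq_mul i l hil] at h
  · rw [if_pos rfl, if_neg hil, sub_zero, if_neg hil.symm, if_pos rfl, zero_sub, cf_one hD,
      cf_neg_one hD] at h
    exact h
  · intro c _ hc; rw [if_neg hc.1, if_neg hc.2, sub_zero, cf_zero hD]
  · intro h; exact absurd (Finset.mem_univ _) h
  · intro h; exact absurd (Finset.mem_univ _) h

/-- The average of the characters of the digits in a family. -/
noncomputable def av (Q K N : ℕ) (J : Fin N → Fin K) (j : ℕ) : ℂ :=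
  (N : ℂ)⁻¹ * ∑ k, ee (Q ^ K) j ((Q : ℤ) ^ (J k : ℕ))

lemma second_moment {D Q : ℕ} (hD : 0 < D) (hQ : D < Q) {K N : ℕ} (hN : 0 < N) (z : Fin K → ℂ)
    (J : Fin N → Fin K) (hJ : Function.Injective J) {w : ℂ} (hw : ∀ k, z (J k) = w) :
    Ex D Q z (fun j => (av Q K N J j - w) * conj (av Q K N J j - w))
      = (((1 : ℝ) / N + (1 - (1 : ℝ) / N) * ((D - 1 : ℝ) / D) ^ 2 * ‖w‖ ^ 2
        - 2 * ((D - 1 : ℝ) / D) * ‖w‖ ^ 2 + ‖w‖ ^ 2 : ℝ) : ℂ) := by
  have hNc : (N : ℂ) ≠ 0 := by exact_mod_cast hN.ne'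
  have e1 : (fun j => (av Q K N J j - w) * conj (av Q K N J j - w))
      = fun j => (((N : ℂ)⁻¹ * (N : ℂ)⁻¹) * ∑ k, ∑ l, ee (Q ^ K) j ((Q : ℤ) ^ (J k : ℕ)
          - (Q : ℤ) ^ (J l : ℕ)) + (-(conj w * (N : ℂ)⁻¹)) * ∑ k, ee (Q ^ K) j ((Q : ℤ) ^ (J k : ℕ)))
        + ((-(w * (N : ℂ)⁻¹)) * ∑ k, ee (Q ^ K) j (-(Q : ℤ) ^ (J k : ℕ)) + (w * conj w) * 1) := by
    funext j
    have : ∑ k, ∑ l, ee (Q ^ K) j ((Q : ℤ) ^ (J k : ℕ) - (Q : ℤ) ^ (J l : ℕ))
        = (∑ k, ee (Q ^ K) j ((Q : ℤ) ^ (J k : ℕ))) * ∑ k, ee (Q ^ K) j (-(Q : ℤ) ^ (J k : ℕ)) := by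
      rw [Finset.sum_mul_sum]
      refine Finset.sum_congr rfl fun k _ => Finset.sum_congr rfl fun l _ => ?_
      rw [sub_eq_add_neg, ee_add]
    rw [this]
    simp only [av, map_sub, map_mul, map_sum, conj_ee, map_inv₀, Complex.conj_natCast]
    ring
  rw [e1, Ex_add, Ex_add, Ex_add, Ex_mul, Ex_mul, Ex_mul, Ex_mul, Ex_one hD hQ, Ex_sum, Ex_sum,
    Ex_sum]
  simp only [Ex_sum, Ex_fst hD hQ, Ex_fst_neg hD hQ, hw]
  have e2 : ∀ k l : Fin N, Ex D Q z (fun j => ee (Q ^ K) j ((Q : ℤ) ^ (J k : ℕ)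
      - (Q : ℤ) ^ (J l : ℕ))) = (((D - 1 : ℝ) / D : ℝ) * w) * (((D - 1 : ℝ) / D : ℝ) * conj w)
        + if k = l then 1 - (((D - 1 : ℝ) / D : ℝ) * w) * (((D - 1 : ℝ) / D : ℝ) * conj w)
          else 0 := by
    intro k l
    by_cases h : k = l
    · subst h
      rw [if_pos rfl]
      simp only [sub_self, ee_zero]
      rw [Ex_one hD hQ]; ring
    · rw [if_neg h, add_zero, Ex_snd hD hQ z (fun h' => h (hJ h')), hw, hw]
  simp only [e2, Finset.sum_add_distrib, Finset.sum_ite_eq, Finset.mem_univ, if_true,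
    Finset.sum_const, Finset.card_univ, Fintype.card_fin, nsmul_eq_mul]
  have h3 : ((‖w‖ ^ 2 : ℝ) : ℂ) = w * conj w := by
    rw [Complex.mul_conj, Complex.normSq_eq_norm_sq]
  simp only [Complex.ofReal_add, Complex.ofReal_mul, Complex.ofReal_sub, Complex.ofReal_one, h3]
  push_cast
  field_simp
  ring

end H970F
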