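import Pool.Agent.H970F.Kernel

set_option autoImplicit false

namespace H970F

open MeasureTheory Complex ComplexConjugate Finset
open scoped BigOperators Real ENNReal

/-- `φ` is the characteristic function of a probability measure on the line. -/
def IsCharFn (φ : ℝ → ℂ) : Prop :=
  ∃ μ : Measure ℝ, IsProbabilityMeasure μ ∧ ∀ ξ, φ ξ = ∫ t, cexp (ξ * t * I) ∂μ

lemma isCharFn_iff {φ : ℝ → ℂ} :
    IsCharFn φ ↔ ∃ μ : Measure ℝ, IsProbabilityMeasure μ ∧ φ = charFun μ := by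
  constructor
  · rintro ⟨μ, hμ, h⟩
    exact ⟨μ, hμ, funext fun ξ => by rw [h, charFun_apply_real]⟩
  · rintro ⟨μ, hμ, h⟩
    exact ⟨μ, hμ, fun ξ => by rw [h, charFun_apply_real]⟩

lemma norm_ex (ξ t : ℝ) : ‖cexp (ξ * t * I)‖ = 1 := by
  have : cexp (ξ * t * I) = cexp ((ξ * t : ℝ) * I) := by push_cast; rfl
  rw [this]; exact Complex.norm_exp_ofReal_mul_I _

lemma integrable_ex (μ : Measure ℝ) [IsFiniteMeasure μ] (ξ : ℝ) :
    Integrable (fun t : ℝ => cexp (ξ * t * I)) μ := by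
  refine (integrable_const (1 : ℝ)).mono (by fun_prop) (ae_of_all _ fun t => ?_)
  rw [norm_ex]; simp

lemma IsCharFn.zero {φ : ℝ → ℂ} (h : IsCharFn φ) : φ 0 = 1 := by
  obtain ⟨μ, hμ, h⟩ := h
  rw [h]; simp

lemma IsCharFn.continuous {φ : ℝ → ℂ} (h : IsCharFn φ) : Continuous φ := by
  obtain ⟨μ, hμ, rfl⟩ := isCharFn_iff.mp h
  exact continuous_charFun

lemma IsCharFn.norm_le {φ : ℝ → ℂ} (h : IsCharFn φ) (ξ : ℝ) : ‖φ ξ‖ ≤ 1 := by
  obtain ⟨μ, hμ, rfl⟩ := isCharFn_iff.mp h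
  exact norm_charFun_le_one ξ

lemma sq_norm_integral_le {μ : Measure ℝ} [IsProbabilityMeasure μ] {g : ℝ → ℂ}
    (hg : Integrable g μ) (hg2 : Integrable (fun t => ‖g t‖ ^ 2) μ) :
    ‖∫ t, g t ∂μ‖ ^ 2 ≤ ∫ t, ‖g t‖ ^ 2 ∂μ := by
  have h1 : ‖∫ t, g t ∂μ‖ ≤ ∫ t, ‖g t‖ ∂μ := norm_integral_le_integral_norm _
  have hn : Integrable (fun t => ‖g t‖) μ := hg.norm
  set c := ∫ t, ‖g t‖ ∂μ with hc
  have h2 : 0 ≤ ∫ t, (‖g t‖ - c) ^ 2 ∂μ := integral_nonneg fun t => sq_nonneg _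
  have h3 : ∫ t, (‖g t‖ - c) ^ 2 ∂μ = (∫ t, ‖g t‖ ^ 2 ∂μ) - c ^ 2 := by
    have : (fun t => (‖g t‖ - c) ^ 2) = fun t => ‖g t‖ ^ 2 - (2 * c * ‖g t‖ - c ^ 2) := by
      funext t; ring
    have hI : Integrable (fun t => 2 * c * ‖g t‖) μ := hn.const_mul _
    have hJ : Integrable (fun t => 2 * c * ‖g t‖ - c ^ 2) μ := hI.sub (integrable_const _)
    rw [this, integral_sub hg2 hJ,
      integral_sub hI (integrable_const _), integral_const_mul, integral_const]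
    simp [← hc]; ring
  have h0 : 0 ≤ ‖∫ t, g t ∂μ‖ := norm_nonneg _
  nlinarith

lemma IsCharFn.diff {φ : ℝ → ℂ} (h : IsCharFn φ) (s u : ℝ) :
    ‖φ (s + u) - φ s‖ ^ 2 ≤ 2 * (1 - (φ u).re) := by
  obtain ⟨μ, hμ, h⟩ := h
  have h1 : φ (s + u) - φ s = ∫ t, (cexp ((s + u : ℝ) * t * I) - cexp (s * t * I)) ∂μ := by
    rw [integral_sub (integrable_ex μ _) (integrable_ex μ _), h, h]
  have h2 : ∀ t : ℝ, ‖cexp ((s + u : ℝ) * t * I) - cexp (s * t * I)‖ ^ 2
      = 2 - 2 * (cexp (u * t * I)).re := by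
    intro t
    have e1 : cexp ((s + u : ℝ) * t * I) - cexp (s * t * I)
        = cexp (s * t * I) * (cexp (u * t * I) - 1) := by
      rw [mul_sub, ← Complex.exp_add]; push_cast; ring_nf
    rw [e1, norm_mul, norm_ex, one_mul, ← Complex.normSq_eq_norm_sq, Complex.normSq_sub]
    rw [Complex.normSq_eq_norm_sq, norm_ex]
    simp
    ring
  have hi : Integrable (fun t : ℝ => (cexp (u * t * I)).re) μ := (integrable_ex μ u).re
  have h3 : ∫ t, ‖cexp ((s + u : ℝ) * t * I) - cexp (s * t * I)‖ ^ 2 ∂μ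
      = 2 * (1 - (φ u).re) := by
    simp only [h2]
    rw [integral_sub (integrable_const _) (hi.const_mul _), integral_const, integral_const_mul]
    have : ∫ t, (cexp (u * t * I)).re ∂μ = (φ u).re := by
      rw [h]
      exact integral_re (integrable_ex μ u)
    rw [this]; simp; ring
  rw [← h3, h1]
  apply sq_norm_integral_le
  · exact (integrable_ex μ _).sub (integrable_ex μ _)
  · simp only [h2]
    exact (integrable_const _).sub (hi.const_mul _)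

lemma isCharFn_exp (t : ℝ) : IsCharFn fun ξ => cexp (ξ * t * I) :=
  ⟨Measure.dirac t, inferInstance, fun ξ => by rw [integral_dirac]⟩

lemma isCharFn_one : IsCharFn fun _ => 1 := by
  have := isCharFn_exp 0
  simpa using this

lemma IsCharFn.mul {φ ψ : ℝ → ℂ} (h : IsCharFn φ) (h' : IsCharFn ψ) :
    IsCharFn fun ξ => φ ξ * ψ ξ := by
  obtain ⟨μ, hμ, rfl⟩ := isCharFn_iff.mp h
  obtain ⟨ν, hν, rfl⟩ := isCharFn_iff.mp h'
  exact isCharFn_iff.mpr ⟨μ.conv ν, inferInstance, funext fun ξ => (charFun_conv ξ).symm⟩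

lemma IsCharFn.pow {φ : ℝ → ℂ} (h : IsCharFn φ) (n : ℕ) : IsCharFn fun ξ => φ ξ ^ n := by
  induction n with
  | zero => simpa using isCharFn_one
  | succ n ih => simpa [pow_succ] using ih.mul h

lemma IsCharFn.conj {φ : ℝ → ℂ} (h : IsCharFn φ) : IsCharFn fun ξ => conj (φ ξ) := by
  obtain ⟨μ, hμ, rfl⟩ := isCharFn_iff.mp h
  refine isCharFn_iff.mpr ⟨μ.map (fun x => (-1) * x), ?_, funext fun ξ => ?_⟩
  · exact Measure.isProbabilityMeasure_map (by fun_prop)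
  · rw [charFun_map_mul, neg_one_mul, charFun_neg]

lemma isCharFn_mix {ι : Type*} [Countable ι] {a : ι → ℝ} (ha : ∀ i, 0 ≤ a i) (hs : HasSum a 1)
    {φ : ι → ℝ → ℂ} (hφ : ∀ i, IsCharFn (φ i)) :
    ∃ ψ : ℝ → ℂ, IsCharFn ψ ∧ ∀ ξ, HasSum (fun i => (a i : ℂ) * φ i ξ) (ψ ξ) := by
  choose μ hμ h using hφ
  set ν : Measure ℝ := Measure.sum fun i => ENNReal.ofReal (a i) • μ i with hν
  have hp : IsProbabilityMeasure ν := by
    refine ⟨?_⟩
    rw [hν, Measure.sum_apply _ MeasurableSet.univ]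
    simp only [Measure.smul_apply, measure_univ, smul_eq_mul, mul_one]
    rw [← ENNReal.ofReal_tsum_of_nonneg ha hs.summable, hs.tsum_eq, ENNReal.ofReal_one]
  refine ⟨fun ξ => ∫ t, cexp (ξ * t * I) ∂ν, ⟨ν, hp, fun ξ => rfl⟩, fun ξ => ?_⟩
  have h1 := hasSum_integral_measure (integrable_ex ν ξ)
  have h2 : (fun i => (a i : ℂ) * φ i ξ)
      = fun i => ∫ t, cexp (ξ * t * I) ∂(ENNReal.ofReal (a i) • μ i) := by
    funext i
    rw [integral_smul_measure, ENNReal.toReal_ofReal (ha i), h]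
    simp
  rw [h2]
  exact h1

lemma isCharFn_sum {ι : Type*} [Countable ι] (s : Finset ι) {a : ι → ℝ}
    (ha : ∀ i ∈ s, 0 ≤ a i) (hs : ∑ i ∈ s, a i = 1) {φ : ι → ℝ → ℂ} (hφ : ∀ i, IsCharFn (φ i)) :
    IsCharFn fun ξ => ∑ i ∈ s, (a i : ℂ) * φ i ξ := by
  classical
  have h1 : HasSum (fun i => if i ∈ s then a i else 0) 1 := by
    rw [← hs, ← Finset.sum_congr rfl (fun i (hi : i ∈ s) => if_pos hi)]
    exact hasSum_sum_of_ne_finset_zero fun i hi => if_neg hi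
  obtain ⟨ψ, hψ, hsum⟩ := isCharFn_mix (fun i => by split_ifs with h; exacts [ha i h, le_rfl])
    h1 hφ
  convert hψ using 1
  funext ξ
  refine HasSum.unique ?_ (hsum ξ)
  rw [← Finset.sum_congr rfl (fun i (hi : i ∈ s) => show
    (((if i ∈ s then a i else 0 : ℝ)) : ℂ) * φ i ξ = _ by rw [if_pos hi])]
  exact hasSum_sum_of_ne_finset_zero fun i hi => by rw [if_neg hi]; simp

lemma isCharFn_mix2 {φ ψ : ℝ → ℂ} (h : IsCharFn φ) (h' : IsCharFn ψ) {κ : ℝ} (h0 : 0 ≤ κ)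
    (h1 : κ ≤ 1) : IsCharFn fun ξ => ((1 - κ : ℝ) : ℂ) * φ ξ + (κ : ℂ) * ψ ξ := by
  have := isCharFn_sum (ι := Bool) Finset.univ (a := fun b => if b then 1 - κ else κ)
    (by intro b _; cases b <;> simp <;> linarith) (by simp)
    (φ := fun b => if b then φ else ψ) (by intro b; cases b <;> simp <;> assumption)
  simpa using this

lemma isCharFn_cos : IsCharFn fun ξ => ((Real.cos ξ : ℝ) : ℂ) := by
  have h := isCharFn_mix2 (isCharFn_exp 1) (isCharFn_exp (-1)) (κ := 1 / 2) (by norm_num)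
    (by norm_num)
  convert h using 1
  funext ξ
  rw [Complex.ofReal_cos, Complex.cos]
  push_cast
  ring_nf

lemma isCharFn_cos_mul (c : ℝ) : IsCharFn fun ξ => ((Real.cos (ξ * c) : ℝ) : ℂ) := by
  have h := isCharFn_mix2 (isCharFn_exp c) (isCharFn_exp (-c)) (κ := 1 / 2) (by norm_num)
    (by norm_num)
  convert h using 1
  funext ξ
  rw [Complex.ofReal_cos, Complex.cos]
  push_cast
  ring_nf

/-- Every point of the closed disc is a value at `2π` of a characteristic function whose other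
values near `2π` are in the open disc. -/
lemma exists_pt {x : ℂ} (hx : ‖x‖ ≤ 1) : ∃ φ : ℝ → ℂ, IsCharFn φ ∧ φ (2 * π) = x ∧
    ∀ ξ : ℝ, ξ ≠ 2 * π → |ξ - 2 * π| < 1 → ‖φ ξ‖ < 1 := by
  have h1 := (isCharFn_exp (Complex.arg x / (2 * π))).mul
    (isCharFn_mix2 (isCharFn_cos_mul (1 / 4)) isCharFn_cos (norm_nonneg x) hx)
  have hpi := Real.pi_pos
  refine ⟨_, h1, ?_, fun ξ hne hξ => ?_⟩
  · have e1 : Real.cos (2 * π * (1 / 4)) = 0 := by
      rw [show 2 * π * (1 / 4) = π / 2 by ring, Real.cos_pi_div_two]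
    simp only [e1, Real.cos_two_pi, Complex.ofReal_zero, mul_zero, zero_add, Complex.ofReal_one,
      mul_one]
    rw [show ((2 * π : ℝ) : ℂ) * ((Complex.arg x / (2 * π) : ℝ) : ℂ) * I = Complex.arg x * I by
      push_cast; field_simp, mul_comm]
    exact Complex.norm_mul_exp_arg_mul_I x
  · rw [norm_mul, norm_ex, one_mul]
    set u := ξ - 2 * π with hu
    have hu0 : u ≠ 0 := sub_ne_zero.mpr hne
    have hu1 := abs_lt.mp hξ
    have hp3 := Real.pi_gt_three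
    have c1 : |Real.cos ξ| < 1 := by
      have e : Real.cos ξ = Real.cos u := by rw [hu, Real.cos_sub_two_pi]
      rw [e, abs_lt]
      constructor
      · have := Real.cos_pos_of_mem_Ioo (x := u) ⟨by linarith, by linarith⟩
        linarith
      · refine lt_of_le_of_ne (Real.cos_le_one u) fun h => hu0 ?_
        exact (Real.cos_eq_one_iff_of_lt_of_lt (by linarith) (by linarith)).mp h
    have c2 : |Real.cos (ξ * (1 / 4))| < 1 := by
      have e : Real.cos (ξ * (1 / 4)) = - Real.sin (u / 4) := by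
        rw [show ξ * (1 / 4) = u / 4 + π / 2 by rw [hu]; ring, Real.cos_add_pi_div_two]
      rw [e, abs_neg]
      refine (Real.abs_sin_le_abs).trans_lt ?_
      rw [abs_div]
      have : |(4 : ℝ)| = 4 := by norm_num
      rw [this]; linarith
    refine (norm_add_le _ _).trans_lt ?_
    rw [norm_mul, norm_mul, Complex.norm_real, Complex.norm_real, Complex.norm_real,
      Complex.norm_real, Real.norm_eq_abs, Real.norm_eq_abs, Real.norm_eq_abs, Real.norm_eq_abs,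
      abs_of_nonneg (by linarith : 0 ≤ 1 - ‖x‖), abs_of_nonneg (norm_nonneg x)]
    rcases lt_or_eq_of_le hx with h | h
    · nlinarith [norm_nonneg x]
    · rw [h]; simpa using c1

/-- Laws on the roots of unity with prescribed mean. -/
lemma exists_mean {D : ℕ} (hD : 2 ≤ D) {z : ℂ} (hz : ‖z‖ ≤ ((D : ℝ) - 1) / D) :
    ∃ ψ : ℝ → ℂ, IsCharFn ψ ∧ ψ (π / (2 * D + 1 : ℕ)) = z ∧ ∀ s, ψ (s + π) = ψ s := by
  set Q : ℕ := 2 * D + 1 with hQ
  have hD0 : 0 < D := by omega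
  have hDr : (0 : ℝ) < D := by exact_mod_cast hD0
  have hD1 : (1 : ℝ) < D := by exact_mod_cast (by omega : 1 < D)
  set ρ : ℝ := ((D : ℝ) - 1) / D with hρ
  have hρ0 : 0 < ρ := div_pos (by linarith) hDr
  have hw : ‖z / ρ‖ ≤ 1 := by
    rw [norm_div, Complex.norm_real, Real.norm_of_nonneg hρ0.le, div_le_one hρ0]; exact hz
  have hr := fun j => riesz_nonneg D Q (z := fun _ : Fin 1 => z / ρ) (fun _ => hw) j
  choose r hr0 hr using hr
  have hm0 := moment D Q (by omega) (fun _ : Fin 1 => z / ρ) (fun _ => 0) (by simp)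
  have hm1 := moment D Q (by omega) (fun _ : Fin 1 => z / ρ) (fun _ => 1) (by simp)
  simp only [Finset.univ_unique, Fin.default_eq_zero, Fin.isValue, Finset.sum_singleton,
    Finset.prod_singleton, Fin.val_zero, pow_zero, mul_one, pow_one, zero_mul, ee_zero, one_mul]
    at hm0 hm1
  rw [cf_zero hD0] at hm0
  rw [cf_one hD0, ← hρ, mul_div_cancel₀ _ (by exact_mod_cast hρ0.ne')] at hm1
  simp only [hr] at hm0 hm1
  have hQr : (0 : ℝ) < Q := by rw [hQ]; positivity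
  have hQc : (Q : ℂ) ≠ 0 := by exact_mod_cast hQr.ne'
  refine ⟨fun s => ∑ j ∈ range Q, ((r j / Q : ℝ) : ℂ) * cexp (s * ((2 * j : ℝ)) * I), ?_, ?_, ?_⟩
  · have := isCharFn_sum (range Q) (a := fun j => r j / Q)
      (fun j _ => div_nonneg (hr0 j) hQr.le) (by
        rw [← Finset.sum_div]
        have : ((∑ j ∈ range Q, r j : ℝ) : ℂ) / Q = 1 := by push_cast; exact hm0
        exact_mod_cast this) (φ := fun j ξ => cexp (ξ * ((2 * j : ℝ)) * I))
        (fun j => isCharFn_exp _)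
    exact this
  · rw [← hm1, Finset.sum_div]
    refine Finset.sum_congr rfl fun j _ => ?_
    rw [ee]
    push_cast
    rw [mul_comm (cexp _), mul_div_right_comm]
    congr 2
    field_simp
  · intro s
    refine Finset.sum_congr rfl fun j _ => ?_
    congr 1
    have : cexp (((s + π : ℝ) : ℂ) * ((2 * j : ℝ)) * I)
        = cexp (s * ((2 * j : ℝ)) * I) * cexp ((j : ℤ) * (2 * π * I)) := by
      rw [← Complex.exp_add]; push_cast; ring_nf
    rw [this, Complex.exp_int_mul_two_pi_mul_I, mul_one]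

/-- Two prescribed values, and the value `1 - κ` at the difference of the points. -/
lemma exists_two {D : ℕ} (hD : 2 ≤ D) {κ : ℝ} (h0 : 0 < κ) (h1 : κ < 1) {x x' : ℂ}
    (hx : ‖x‖ ≤ (1 - κ) * (((D : ℝ) - 1) / D)) (hd : ‖x' - x‖ ≤ κ * (((D : ℝ) - 1) / D)) :
    ∃ φ : ℝ → ℂ, IsCharFn φ ∧ φ (π / (2 * D + 1 : ℕ)) = x ∧
      φ (π / (2 * D + 1 : ℕ) + π) = x' ∧ φ π = ((1 - κ : ℝ) : ℂ) := by
  have hk : 0 < 1 - κ := by linarith
  obtain ⟨m1, hm1, hv1, hp1⟩ := exists_mean hD (z := x / ((1 - κ : ℝ) : ℂ)) (by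
    rw [norm_div, Complex.norm_real, Real.norm_of_nonneg hk.le, div_le_iff₀ hk]
    linarith)
  obtain ⟨m2, hm2, hv2, hp2⟩ := exists_mean hD (z := (x' - x) / ((κ : ℝ) : ℂ)) (by
    rw [norm_div, Complex.norm_real, Real.norm_of_nonneg h0.le, div_le_iff₀ h0]
    linarith)
  set M : ℕ := 2 * D + 1 with hM
  have hMr : (0 : ℝ) < M := by rw [hM]; positivity
  have hMc : (M : ℂ) ≠ 0 := by exact_mod_cast hMr.ne'
  have h3 := isCharFn_mix2 isCharFn_one (isCharFn_exp M) (κ := 1 / 2) (by norm_num) (by norm_num)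
  have h4 := isCharFn_mix2 hm1 (hm2.mul h3) h0.le h1.le
  have hkc : ((1 - κ : ℝ) : ℂ) ≠ 0 := by exact_mod_cast hk.ne'
  have h0c : ((κ : ℝ) : ℂ) ≠ 0 := by exact_mod_cast h0.ne'
  have e1 : cexp (((π / M : ℝ) : ℂ) * (M : ℝ) * I) = -1 := by
    rw [← Complex.exp_pi_mul_I]; congr 1; push_cast; field_simp
  have e2 : cexp (((π : ℝ) : ℂ) * (M : ℝ) * I) = -1 := by
    rw [← Complex.exp_pi_mul_I]
    have : ((π : ℝ) : ℂ) * (M : ℝ) * I = π * I + (D : ℤ) * (2 * π * I) := by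
      rw [hM]; push_cast; ring
    rw [this, Complex.exp_add, Complex.exp_int_mul_two_pi_mul_I, mul_one]
  have e3 : cexp (((π / M + π : ℝ) : ℂ) * (M : ℝ) * I) = 1 := by
    have : ((π / M + π : ℝ) : ℂ) * (M : ℝ) * I
        = ((π / M : ℝ) : ℂ) * (M : ℝ) * I + ((π : ℝ) : ℂ) * (M : ℝ) * I := by push_cast; ring
    rw [this, Complex.exp_add, e1, e2]; norm_num
  refine ⟨_, h4, ?_, ?_, ?_⟩
  · show ((1 - κ : ℝ) : ℂ) * m1 (π / M) + (κ : ℂ) * (m2 (π / M) * (((1 - 1 / 2 : ℝ) : ℂ) * 1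
      + ((1 / 2 : ℝ) : ℂ) * cexp (((π / M : ℝ) : ℂ) * (M : ℝ) * I))) = x
    rw [e1, hv1, mul_div_cancel₀ _ hkc]
    push_cast; ring
  · show ((1 - κ : ℝ) : ℂ) * m1 (π / M + π) + (κ : ℂ) * (m2 (π / M + π) * (((1 - 1 / 2 : ℝ) : ℂ) * 1
      + ((1 / 2 : ℝ) : ℂ) * cexp (((π / M + π : ℝ) : ℂ) * (M : ℝ) * I))) = x'
    rw [e3, hp1, hp2, hv1, hv2, mul_div_cancel₀ _ hkc]
    have : (κ : ℂ) * ((x' - x) / (κ : ℂ) * (((1 - 1 / 2 : ℝ) : ℂ) * 1 + ((1 / 2 : ℝ) : ℂ) * 1))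
        = x' - x := by
      push_cast; field_simp; ring
    rw [this]; ring
  · show ((1 - κ : ℝ) : ℂ) * m1 π + (κ : ℂ) * (m2 π * (((1 - 1 / 2 : ℝ) : ℂ) * 1
      + ((1 / 2 : ℝ) : ℂ) * cexp (((π : ℝ) : ℂ) * (M : ℝ) * I))) = _
    have hp : m1 π = 1 := by
      have := hp1 0
      rw [zero_add] at this
      rw [this, hm1.zero]
    rw [e2, hp]
    push_cast; ring

end H970F
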