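import Mathlib

set_option autoImplicit false

namespace H970F

open Complex ComplexConjugate Finset
open scoped BigOperators Real

/-- `w ^ a` for `a ≥ 0` and `conj w ^ (-a)` for `a < 0`. -/
noncomputable def pw (w : ℂ) (a : ℤ) : ℂ := w ^ a.toNat * conj w ^ (-a).toNat

lemma pw_mul (w u : ℂ) (a : ℤ) : pw (w * u) a = pw w a * pw u a := by
  simp only [pw, map_mul, mul_pow]; ring

lemma pw_zero (w : ℂ) : pw w 0 = 1 := by simp [pw]

lemma pw_one (w : ℂ) : pw w 1 = w := by simp [pw]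

lemma pw_neg_one (w : ℂ) : pw w (-1) = conj w := by simp [pw]

lemma pw_conj (w : ℂ) (a : ℤ) : pw (conj w) a = pw w (-a) := by
  simp only [pw, neg_neg, Complex.conj_conj]; ring

lemma pw_neg (w : ℂ) (a : ℤ) : pw w (-a) = conj (pw w a) := by
  simp only [pw, neg_neg, map_mul, map_pow, Complex.conj_conj]; ring

lemma pw_exp (θ : ℝ) (a : ℤ) : pw (cexp (θ * I)) a = cexp (a * θ * I) := by
  have hc : conj (cexp (θ * I)) = cexp (-(θ * I)) := by
    rw [← Complex.exp_conj]; simp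
  rcases le_total 0 a with h | h
  · obtain ⟨n, rfl⟩ := Int.eq_ofNat_of_zero_le h
    simp only [pw, hc, Int.toNat_natCast, Int.toNat_neg_natCast, pow_zero, mul_one]
    rw [← Complex.exp_nat_mul]; push_cast; ring_nf
  · obtain ⟨n, hn⟩ := Int.eq_ofNat_of_zero_le (neg_nonneg.mpr h)
    obtain rfl : a = -(n : ℤ) := by omega
    simp only [pw, hc, neg_neg, Int.toNat_natCast, Int.toNat_neg_natCast, pow_zero, one_mul]
    rw [← Complex.exp_nat_mul]; push_cast; ring_nf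

/-- The sum of the matrix of `pw w (a - b)`. -/
noncomputable def tp (D : ℕ) (w : ℂ) : ℂ :=
  ∑ a ∈ range D, ∑ b ∈ range D, pw w ((a : ℤ) - b)

/-- The geometric sum. -/
noncomputable def sg (D : ℕ) (w : ℂ) : ℂ := ∑ k ∈ range D, w ^ k

lemma sg_succ (D : ℕ) (w : ℂ) : sg (D + 1) w = 1 + w * sg D w := by
  simp only [sg]
  rw [Finset.sum_range_succ', Finset.mul_sum]
  simp only [pow_zero]
  rw [add_comm]
  congr 1
  exact Finset.sum_congr rfl fun k _ => by rw [pow_succ]; ring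

lemma row (D : ℕ) (w : ℂ) : ∑ b ∈ range D, pw w ((D : ℤ) - b) = w * sg D w := by
  rw [← Finset.sum_range_reflect]
  simp only [sg, Finset.mul_sum]
  refine Finset.sum_congr rfl fun k hk => ?_
  rw [Finset.mem_range] at hk
  have h1 : ((D : ℤ) - ((D - 1 - k : ℕ) : ℤ)) = ((k + 1 : ℕ) : ℤ) := by omega
  rw [h1]
  simp only [pw, Int.toNat_natCast, Int.toNat_neg_natCast, pow_zero, mul_one]
  rw [pow_succ]; ring

lemma col (D : ℕ) (w : ℂ) : ∑ b ∈ range D, pw w ((b : ℤ) - D) = conj (w * sg D w) := by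
  rw [← row, map_sum]
  refine Finset.sum_congr rfl fun k _ => ?_
  rw [← pw_neg, neg_sub]

lemma tp_succ (D : ℕ) (w : ℂ) :
    tp (D + 1) w = tp D w + (w * sg D w + conj (w * sg D w) + 1) := by
  have h1 : tp (D + 1) w = ∑ a ∈ range (D + 1), (∑ b ∈ range D, pw w ((a : ℤ) - b)
      + pw w ((a : ℤ) - D)) := by
    simp only [tp]
    exact Finset.sum_congr rfl fun a _ => by rw [Finset.sum_range_succ]
  rw [h1, Finset.sum_range_succ, Finset.sum_add_distrib, row, col]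
  simp only [tp, sub_self, pw_zero]
  ring

lemma tp_eq (D : ℕ) (w : ℂ) :
    tp D w = ((‖sg D w‖ ^ 2 + (1 - ‖w‖ ^ 2) * ∑ m ∈ range D, ‖sg m w‖ ^ 2 : ℝ) : ℂ) := by
  induction D with
  | zero => simp [tp, sg]
  | succ D ih =>
    rw [tp_succ, ih, Finset.sum_range_succ]
    have h1 : ((‖sg (D + 1) w‖ ^ 2 : ℝ) : ℂ) = sg (D + 1) w * conj (sg (D + 1) w) := by
      rw [Complex.mul_conj, Complex.normSq_eq_norm_sq]
    have h2 : ((‖sg D w‖ ^ 2 : ℝ) : ℂ) = sg D w * conj (sg D w) := by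
      rw [Complex.mul_conj, Complex.normSq_eq_norm_sq]
    have h3 : ((‖w‖ ^ 2 : ℝ) : ℂ) = w * conj w := by
      rw [Complex.mul_conj, Complex.normSq_eq_norm_sq]
    rw [sg_succ] at h1
    rw [sg_succ]
    simp only [Complex.ofReal_add, Complex.ofReal_mul, Complex.ofReal_sub, Complex.ofReal_one]
    rw [h1, h2, h3]
    simp only [map_add, map_mul, map_one]
    ring

/-- The kernel. -/
noncomputable def ker (D : ℕ) (w : ℂ) : ℂ := (∑ p ∈ range D ×ˢ range D, pw w ((p.1 : ℤ) - p.2)) / D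

lemma ker_nonneg (D : ℕ) {w : ℂ} (hw : ‖w‖ ≤ 1) : ∃ r : ℝ, 0 ≤ r ∧ ker D w = r := by
  refine ⟨(‖sg D w‖ ^ 2 + (1 - ‖w‖ ^ 2) * ∑ m ∈ range D, ‖sg m w‖ ^ 2) / D, ?_, ?_⟩
  · have h1 : 0 ≤ 1 - ‖w‖ ^ 2 := by nlinarith [norm_nonneg w]
    positivity
  · rw [ker, Finset.sum_product, Complex.ofReal_div, Complex.ofReal_natCast, ← tp_eq, tp]

/-- The character `m` of the cyclic group of order `L` at `j`. -/
noncomputable def ee (L : ℕ) (j : ℕ) (m : ℤ) : ℂ := cexp (((2 * π * j * m / L : ℝ) : ℂ) * I)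

lemma ee_add (L j : ℕ) (m n : ℤ) : ee L j (m + n) = ee L j m * ee L j n := by
  rw [ee, ee, ee, ← Complex.exp_add]; congr 1; push_cast; ring

lemma ee_zero (L j : ℕ) : ee L j 0 = 1 := by simp [ee]

lemma conj_ee (L j : ℕ) (m : ℤ) : conj (ee L j m) = ee L j (-m) := by
  rw [ee, ee, ← Complex.exp_conj]; congr 1
  simp only [map_mul, Complex.conj_ofReal, Complex.conj_I]
  push_cast; ring

lemma norm_ee (L j : ℕ) (m : ℤ) : ‖ee L j m‖ = 1 := by
  rw [ee]; exact Complex.norm_exp_ofReal_mul_I _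

lemma pw_ee (L j : ℕ) (m a : ℤ) : pw (ee L j m) a = ee L j (a * m) := by
  rw [ee, pw_exp, ee]; congr 1; push_cast; ring

lemma ee_sum_pi {ι : Type*} (s : Finset ι) (L j : ℕ) (m : ι → ℤ) :
    ee L j (∑ k ∈ s, m k) = ∏ k ∈ s, ee L j (m k) := by
  classical
  induction s using Finset.induction_on with
  | empty => simp [ee_zero]
  | insert a s ha ih => rw [Finset.sum_insert ha, Finset.prod_insert ha, ee_add, ih]

lemma ee_orth {L : ℕ} (hL : 0 < L) (m : ℤ) :
    (∑ j ∈ range L, ee L j m) / L = if (L : ℤ) ∣ m then 1 else 0 := by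
  have hL' : (L : ℂ) ≠ 0 := by exact_mod_cast hL.ne'
  have h1 : ∀ j ∈ range L, ee L j m = (cexp ((2 * π * m / L : ℝ) * I)) ^ j := by
    intro j _
    rw [ee, ← Complex.exp_nat_mul]; congr 1; push_cast; ring
  rw [Finset.sum_congr rfl h1]
  split_ifs with h
  · obtain ⟨n, rfl⟩ := h
    have : cexp ((2 * π * ((L * n : ℤ) : ℝ) / L : ℝ) * I) = 1 := by
      rw [Complex.exp_eq_one_iff]
      refine ⟨n, ?_⟩
      push_cast; field_simp
    rw [this]; simp [hL']
  · have hne : cexp ((2 * π * m / L : ℝ) * I) ≠ 1 := by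
      intro h0
      rw [Complex.exp_eq_one_iff] at h0
      obtain ⟨n, hn⟩ := h0
      apply h
      refine ⟨n, ?_⟩
      have h2 : ((2 * π * m / L : ℝ) : ℂ) = ((n * (2 * π) : ℝ) : ℂ) := by
        have := mul_right_cancel₀ Complex.I_ne_zero
          (show ((2 * π * m / L : ℝ) : ℂ) * I = ((n * (2 * π) : ℝ) : ℂ) * I by
            rw [hn]; push_cast; ring)
        exact this
      have h3 : (2 * π * m / L : ℝ) = n * (2 * π) := by exact_mod_cast h2
      have hLr : (L : ℝ) ≠ 0 := by exact_mod_cast hL.ne'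
      have h4 : (m : ℝ) = L * n := by
        field_simp at h3
        have := Real.pi_pos
        nlinarith [h3]
      exact_mod_cast h4
    rw [geom_sum_eq hne]
    have : cexp ((2 * π * m / L : ℝ) * I) ^ L = 1 := by
      rw [← Complex.exp_nat_mul, Complex.exp_eq_one_iff]
      refine ⟨m, ?_⟩
      push_cast; field_simp
    rw [this]; simp

/-- Digits of absolute value less than the base are unique. -/
lemma digits {Q : ℕ} : ∀ (K : ℕ) (a : Fin K → ℤ), (∀ k, |a k| < Q) →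
    ((Q : ℤ) ^ K ∣ ∑ k, a k * (Q : ℤ) ^ (k : ℕ)) → ∀ k, a k = 0 := by
  intro K
  induction K with
  | zero => intro a _ _ k; exact k.elim0
  | succ K ih =>
    intro a ha hd
    have hQ : (Q : ℤ) ≠ 0 := by
      intro h
      have := ha 0
      rw [h] at this
      exact absurd this (not_lt.mpr (abs_nonneg _))
    rw [Fin.sum_univ_succ] at hd
    have h1 : ∑ i : Fin K, a i.succ * (Q : ℤ) ^ ((i.succ : Fin (K + 1)) : ℕ)
        = Q * ∑ i : Fin K, a i.succ * (Q : ℤ) ^ (i : ℕ) := by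
      rw [Finset.mul_sum]
      refine Finset.sum_congr rfl fun i _ => ?_
      rw [Fin.val_succ, pow_succ]; ring
    rw [h1] at hd
    simp only [Fin.val_zero, pow_zero, mul_one] at hd
    have h2 : (Q : ℤ) ∣ a 0 := by
      have h3 : (Q : ℤ) ∣ a 0 + Q * ∑ i : Fin K, a i.succ * (Q : ℤ) ^ (i : ℕ) :=
        dvd_trans (dvd_pow_self _ (Nat.succ_ne_zero K)) hd
      exact (dvd_add_left (dvd_mul_right _ _)).mp h3
    have h0 : a 0 = 0 := Int.eq_zero_of_abs_lt_dvd h2 (ha 0)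
    rw [h0, zero_add, pow_succ, mul_comm] at hd
    have h4 := Int.dvd_of_mul_dvd_mul_left hQ hd
    have h5 := ih (fun i => a i.succ) (fun i => ha _) h4
    intro k
    refine Fin.cases h0 (fun i => h5 i) k

/-- The Riesz product. -/
noncomputable def riesz (D Q : ℕ) {K : ℕ} (z : Fin K → ℂ) (j : ℕ) : ℂ :=
  ∏ k, ker D (z k * conj (ee (Q ^ K) j ((Q : ℤ) ^ (k : ℕ))))

lemma riesz_nonneg (D Q : ℕ) {K : ℕ} {z : Fin K → ℂ} (hz : ∀ k, ‖z k‖ ≤ 1) (j : ℕ) :
    ∃ r : ℝ, 0 ≤ r ∧ riesz D Q z j = r := by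
  have h : ∀ k : Fin K, ∃ r : ℝ, 0 ≤ r ∧
      ker D (z k * conj (ee (Q ^ K) j ((Q : ℤ) ^ (k : ℕ)))) = r := fun k =>
    ker_nonneg D (by rw [norm_mul, RCLike.norm_conj, norm_ee, mul_one]; exact hz k)
  choose r hr0 hr using h
  refine ⟨∏ k, r k, Finset.prod_nonneg fun k _ => hr0 k, ?_⟩
  rw [riesz, Complex.ofReal_prod]
  exact Finset.prod_congr rfl fun k _ => hr k

/-- The index set of the expansion. -/
def ind (D K : ℕ) : Finset (Fin K → ℕ × ℕ) := Fintype.piFinset fun _ => range D ×ˢ range D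

/-- The frequency. -/
def fr (Q : ℕ) {K : ℕ} (τ : Fin K → ℕ × ℕ) : ℤ := ∑ k, (((τ k).1 : ℤ) - (τ k).2) * (Q : ℤ) ^ (k : ℕ)

lemma riesz_expand (D Q : ℕ) {K : ℕ} (z : Fin K → ℂ) (j : ℕ) :
    riesz D Q z j = ∑ τ ∈ ind D K, (∏ k, pw (z k) (((τ k).1 : ℤ) - (τ k).2)) / (D : ℂ) ^ K
      * ee (Q ^ K) j (-fr Q τ) := by
  rw [riesz]
  simp only [ker]
  rw [Finset.prod_div_distrib, Finset.prod_univ_sum, Finset.sum_div]
  refine Finset.sum_congr rfl fun τ _ => ?_
  rw [Finset.prod_const, Finset.card_univ, Fintype.card_fin, div_mul_eq_mul_div]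
  congr 1
  rw [fr, ← Finset.sum_neg_distrib, ee_sum_pi, ← Finset.prod_mul_distrib]
  refine Finset.prod_congr rfl fun k _ => ?_
  rw [pw_mul, conj_ee, pw_ee]
  congr 2
  ring

lemma expect_expand (D Q : ℕ) {K : ℕ} (z : Fin K → ℂ) (q : ℕ → ℂ) :
    (∑ j ∈ range (Q ^ K), q j * riesz D Q z j) / ((Q ^ K : ℕ) : ℂ) =
      ∑ τ ∈ ind D K, (∏ k, pw (z k) (((τ k).1 : ℤ) - (τ k).2)) / (D : ℂ) ^ K
        * ((∑ j ∈ range (Q ^ K), q j * ee (Q ^ K) j (-fr Q τ)) / ((Q ^ K : ℕ) : ℂ)) := by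
  simp only [riesz_expand, Finset.mul_sum, Finset.sum_div]
  rw [Finset.sum_comm]
  refine Finset.sum_congr rfl fun τ _ => ?_
  refine Finset.sum_congr rfl fun j _ => ?_
  ring

/-- The value of one factor. -/
noncomputable def cf (D : ℕ) (w : ℂ) (e : ℤ) : ℂ :=
  (∑ p ∈ range D ×ˢ range D, if ((p.1 : ℤ) - p.2) = e then pw w e else 0) / D

lemma moment (D Q : ℕ) (hQ : D < Q) {K : ℕ} (z : Fin K → ℂ) (e : Fin K → ℤ)
    (he : ∀ k, |e k| ≤ 1) :
    (∑ j ∈ range (Q ^ K), ee (Q ^ K) j (∑ k, e k * (Q : ℤ) ^ (k : ℕ)) * riesz D Q z j)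
      / ((Q ^ K : ℕ) : ℂ) = ∏ k, cf D (z k) (e k) := by
  have hQ0 : 0 < Q := by omega
  rw [expect_expand]
  have h1 : ∀ τ ∈ ind D K, (∏ k, pw (z k) (((τ k).1 : ℤ) - (τ k).2)) / (D : ℂ) ^ K
        * ((∑ j ∈ range (Q ^ K), ee (Q ^ K) j (∑ k, e k * (Q : ℤ) ^ (k : ℕ))
          * ee (Q ^ K) j (-fr Q τ)) / ((Q ^ K : ℕ) : ℂ))
      = (∏ k, if (((τ k).1 : ℤ) - (τ k).2) = e k then pw (z k) (e k) else 0) / (D : ℂ) ^ K := by
    intro τ hτ
    simp only [← ee_add]
    rw [ee_orth (pow_pos hQ0 K)]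
    rw [ind, Fintype.mem_piFinset] at hτ
    have hs : (∑ k, e k * (Q : ℤ) ^ (k : ℕ)) + -fr Q τ
        = ∑ k : Fin K, (e k - (((τ k).1 : ℤ) - (τ k).2)) * (Q : ℤ) ^ (k : ℕ) := by
      rw [fr, ← Finset.sum_neg_distrib, ← Finset.sum_add_distrib]
      exact Finset.sum_congr rfl fun k _ => by ring
    split_ifs with h
    · have h2 : ∀ k, e k - (((τ k).1 : ℤ) - (τ k).2) = 0 := by
        rw [hs] at h
        refine digits K _ (fun k => ?_) (by exact_mod_cast h)
        have h3 := hτ k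
        rw [Finset.mem_product, Finset.mem_range, Finset.mem_range] at h3
        have h4 := abs_le.mp (he k)
        rw [abs_lt]
        constructor <;> omega
      rw [mul_one]
      congr 1
      refine Finset.prod_congr rfl fun k _ => ?_
      have h5 : (((τ k).1 : ℤ) - (τ k).2) = e k := by linarith [h2 k]
      rw [if_pos h5, h5]
    · rw [mul_zero]
      have h2 : ∃ k, ¬ (((τ k).1 : ℤ) - (τ k).2) = e k := by
        by_contra hcon
        push Not at hcon
        apply h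
        rw [hs]
        have : ∀ k : Fin K, (e k - (((τ k).1 : ℤ) - (τ k).2)) * (Q : ℤ) ^ (k : ℕ) = 0 := by
          intro k; rw [hcon k]; ring
        rw [Finset.sum_congr rfl fun k _ => this k]
        simp
      obtain ⟨k, hk⟩ := h2
      rw [Finset.prod_eq_zero (Finset.mem_univ k) (by rw [if_neg hk]), zero_div]
  rw [Finset.sum_congr rfl h1, ← Finset.sum_div]
  simp only [cf]
  rw [Finset.prod_div_distrib, Finset.prod_univ_sum, Finset.prod_const, Finset.card_univ,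
    Fintype.card_fin]
  rfl

lemma cf_zero {D : ℕ} (hD : 0 < D) (w : ℂ) : cf D w 0 = 1 := by
  have hD' : (D : ℂ) ≠ 0 := by exact_mod_cast hD.ne'
  rw [cf, pw_zero, Finset.sum_product]
  have : ∀ a ∈ range D, (∑ b ∈ range D, if ((a : ℤ) - b) = 0 then (1 : ℂ) else 0) = 1 := by
    intro a ha
    rw [Finset.sum_eq_single a]
    · simp
    · intro b _ hb
      rw [if_neg]
      intro h; apply hb; omega
    · intro h; exact absurd ha h
  rw [Finset.sum_congr rfl this]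
  simp [hD']

lemma cf_one {D : ℕ} (hD : 0 < D) (w : ℂ) : cf D w 1 = ((D - 1 : ℝ) / D : ℝ) * w := by
  have hD' : (D : ℂ) ≠ 0 := by exact_mod_cast hD.ne'
  rw [cf, pw_one, Finset.sum_product]
  obtain ⟨E, rfl⟩ : ∃ E, D = E + 1 := ⟨D - 1, by omega⟩
  rw [Finset.sum_range_succ']
  have h1 : ∀ a ∈ range E, (∑ b ∈ range (E + 1),
      if (((a + 1 : ℕ) : ℤ) - b) = 1 then w else 0) = w := by
    intro a ha
    rw [Finset.mem_range] at ha
    rw [Finset.sum_eq_single a]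
    · rw [if_pos]; push_cast; ring
    · intro b _ hb
      rw [if_neg]
      intro h; apply hb; omega
    · intro h; exact absurd (Finset.mem_range.mpr (by omega)) h
  have h2 : (∑ b ∈ range (E + 1), if (((0 : ℕ) : ℤ) - b) = 1 then w else 0) = 0 := by
    refine Finset.sum_eq_zero fun b _ => ?_
    rw [if_neg]; omega
  rw [Finset.sum_congr rfl h1]
  simp only [h2]
  simp
  ring

lemma cf_neg_one {D : ℕ} (hD : 0 < D) (w : ℂ) :
    cf D w (-1) = ((D - 1 : ℝ) / D : ℝ) * conj w := by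
  have h : cf D w (-1) = conj (cf D w 1) := by
    rw [cf, cf, map_div₀, Complex.conj_natCast, map_sum, pw_neg_one, pw_one]
    congr 1
    rw [Finset.sum_product, Finset.sum_comm, Finset.sum_product]
    refine Finset.sum_congr rfl fun a _ => Finset.sum_congr rfl fun b _ => ?_
    by_cases hab : ((a : ℤ) - b) = 1
    · rw [if_pos hab, if_pos (by omega)]
    · rw [if_neg hab, if_neg (by omega), map_zero]
  rw [h, cf_one hD, map_mul, Complex.conj_ofReal]

end H970F
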