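import Pool.Agent.H970F.Approx

set_option autoImplicit false

namespace H970F

open MeasureTheory Complex ComplexConjugate Finset
open scoped BigOperators Real ENNReal

/-- The monomial. -/
noncomputable def mo (x y : ℂ) (i : ℕ × ℕ × ℕ × ℕ) : ℂ :=
  x ^ i.1 * conj x ^ i.2.1 * y ^ i.2.2.1 * conj y ^ i.2.2.2

lemma norm_mo_le {x y : ℂ} (hx : ‖x‖ ≤ 1) (hy : ‖y‖ ≤ 1) (i : ℕ × ℕ × ℕ × ℕ) : ‖mo x y i‖ ≤ 1 := by
  simp only [mo, norm_mul, norm_pow, RCLike.norm_conj]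
  have h1 := pow_le_one₀ (n := i.1) (norm_nonneg x) hx
  have h2 := pow_le_one₀ (n := i.2.1) (norm_nonneg x) hx
  have h3 := pow_le_one₀ (n := i.2.2.1) (norm_nonneg y) hy
  have h4 := pow_le_one₀ (n := i.2.2.2) (norm_nonneg y) hy
  have p1 : 0 ≤ ‖x‖ ^ i.1 := by positivity
  have p2 : 0 ≤ ‖x‖ ^ i.2.1 := by positivity
  have p3 : 0 ≤ ‖y‖ ^ i.2.2.1 := by positivity
  have p4 : 0 ≤ ‖y‖ ^ i.2.2.2 := by positivity
  exact mul_le_one₀ (mul_le_one₀ (mul_le_one₀ h1 p2 h2) p3 h3) p4 h4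

/-- The two groups of variables. -/
noncomputable def zz (n : ℕ) (x y : ℂ) : Fin (n + n) → ℂ := Fin.append (fun _ => x) (fun _ => y)

lemma zz_le {n : ℕ} {x y : ℂ} (hx : ‖x‖ ≤ 1) (hy : ‖y‖ ≤ 1) (k : Fin (n + n)) :
    ‖zz n x y k‖ ≤ 1 := by
  refine Fin.addCases (fun i => ?_) (fun i => ?_) k
  · rw [zz, Fin.append_left]; exact hx
  · rw [zz, Fin.append_right]; exact hy

/-- The exponents. -/
def expo (n : ℕ) (τ : Fin (n + n) → ℕ × ℕ) : ℕ × ℕ × ℕ × ℕ :=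
  (∑ k : Fin n, (((τ (Fin.castAdd n k)).1 : ℤ) - (τ (Fin.castAdd n k)).2).toNat,
   ∑ k : Fin n, (-(((τ (Fin.castAdd n k)).1 : ℤ) - (τ (Fin.castAdd n k)).2)).toNat,
   ∑ k : Fin n, (((τ (Fin.natAdd n k)).1 : ℤ) - (τ (Fin.natAdd n k)).2).toNat,
   ∑ k : Fin n, (-(((τ (Fin.natAdd n k)).1 : ℤ) - (τ (Fin.natAdd n k)).2)).toNat)

lemma prod_pw (n : ℕ) (x y : ℂ) (τ : Fin (n + n) → ℕ × ℕ) :
    ∏ k, pw (zz n x y k) (((τ k).1 : ℤ) - (τ k).2) = mo x y (expo n τ) := by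
  rw [Fin.prod_univ_add]
  simp only [zz, Fin.append_left, Fin.append_right, pw, Finset.prod_mul_distrib,
    Finset.prod_pow_eq_pow_sum, mo, expo]
  ring

/-- The averages. -/
noncomputable def avA (n j : ℕ) : ℂ := av (n + 2) (n + n) n (Fin.castAdd n) j

/-- The averages. -/
noncomputable def avB (n j : ℕ) : ℂ := av (n + 2) (n + n) n (Fin.natAdd n) j

lemma av_char (n : ℕ) (hn : 0 < n) (Q K : ℕ) (J : Fin n → Fin K) :
    ∃ φ : ℝ → ℂ, IsCharFn φ ∧ φ (2 * π) = 1 ∧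
      ∀ j : ℕ, φ (2 * π * j / (Q ^ K : ℕ)) = av Q K n J j := by
  have hnr : (0 : ℝ) < n := by exact_mod_cast hn
  have hnc : (n : ℂ) ≠ 0 := by exact_mod_cast hn.ne'
  have h := isCharFn_sum (ι := Fin n) Finset.univ (a := fun _ => (n : ℝ)⁻¹)
    (fun _ _ => inv_nonneg.mpr hnr.le) (by simp [hnr.ne'])
    (φ := fun k ξ => cexp (ξ * ((Q : ℝ) ^ (J k : ℕ) : ℝ) * I)) (fun k => isCharFn_exp _)
  refine ⟨_, h, ?_, fun j => ?_⟩
  · have : ∀ k : Fin n, cexp (((2 * π : ℝ) : ℂ) * (((Q : ℝ) ^ (J k : ℕ) : ℝ)) * I) = 1 := by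
      intro k
      rw [Complex.exp_eq_one_iff]
      refine ⟨(Q : ℤ) ^ (J k : ℕ), ?_⟩
      push_cast; ring
    simp only [this]
    simp [hnc]
  · simp only [av, ← Finset.mul_sum]
    rw [Complex.ofReal_inv, Complex.ofReal_natCast]
    congr 1
    refine Finset.sum_congr rfl fun k _ => ?_
    rw [ee]
    congr 1
    push_cast
    ring

lemma Adm.le_one {F : ℂ → ℂ → ℂ} (hF : Adm F) {x y : ℂ} (hx : ‖x‖ ≤ 1) (hy : ‖y‖ ≤ 1) :
    ‖F x y‖ ≤ 1 := by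
  obtain ⟨φ, hφ, h1, -⟩ := exists_pt hx
  obtain ⟨ψ, hψ, h2, -⟩ := exists_pt hy
  have := (hF _ _ hφ hψ).norm_le (2 * π)
  simpa only [h1, h2] using this

lemma av_le (n j Q K : ℕ) (J : Fin n → Fin K) : ‖av Q K n J j‖ ≤ 1 := by
  rw [av, norm_mul, norm_inv, Complex.norm_natCast]
  rcases Nat.eq_zero_or_pos n with h | h
  · subst h; simp
  have hnr : (0 : ℝ) < n := by exact_mod_cast h
  rw [inv_mul_le_iff₀ hnr, mul_one]
  refine (norm_sum_le _ _).trans ?_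
  simp [norm_ee]

/-- The polynomial approximations. -/
lemma Adm.poly {F : ℂ → ℂ → ℂ} (hF : Adm F) {n : ℕ} (hn : 0 < n) :
    ∃ C : (Fin (n + n) → ℕ × ℕ) → ℝ, (∀ τ, 0 ≤ C τ) ∧ ∀ x y : ℂ,
      Ex (n + 1) (n + 2) (zz n x y) (fun j => F (avA n j) (avB n j))
        = ∑ τ ∈ ind (n + 1) (n + n), (C τ : ℂ) * mo x y (expo n τ) := by
  obtain ⟨φ, hφ, h1, h1'⟩ := av_char n hn (n + 2) (n + n) (Fin.castAdd n)
  obtain ⟨ψ, hψ, h2, h2'⟩ := av_char n hn (n + 2) (n + n) (Fin.natAdd n)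
  have hf := hF _ _ hφ hψ
  have hL : 0 < (n + 2) ^ (n + n) := by positivity
  have h3 := fun m : ℤ => coeff_nonneg hf (by rw [h1, h2, hF.one]) hL m
  choose c hc0 hc using h3
  refine ⟨fun τ => c (fr (n + 2) τ) / ((n + 1 : ℕ) : ℝ) ^ (n + n), fun τ =>
    div_nonneg (hc0 _) (by positivity), fun x y => ?_⟩
  rw [Ex, expect_expand]
  refine Finset.sum_congr rfl fun τ _ => ?_
  rw [prod_pw]
  have h4 := hc (fr (n + 2) τ)
  simp only [h1', h2'] at h4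
  simp only [avA, avB]
  rw [h4]
  push_cast
  ring

lemma Adm.approx {F : ℂ → ℂ → ℂ} (hF : Adm F) {n : ℕ} (hn : 0 < n) {x y : ℂ} (hx : ‖x‖ ≤ 1)
    (hy : ‖y‖ ≤ 1) {ε δ : ℝ} (hε : 0 ≤ ε) (hδ : 0 < δ)
    (h : ∀ x' y' : ℂ, ‖x' - x‖ ≤ δ → ‖y' - y‖ ≤ δ → ‖F x' y' - F x y‖ ≤ ε) :
    ‖Ex (n + 1) (n + 2) (zz n x y) (fun j => F (avA n j) (avB n j)) - F x y‖
      ≤ ε + 8 / δ ^ 2 / n := by
  have hr := fun j => riesz_nonneg (n + 1) (n + 2) (zz_le (n := n) hx hy) j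
  choose r hr0 hr using hr
  have hnr : (0 : ℝ) < n := by exact_mod_cast hn
  set L : ℕ := (n + 2) ^ (n + n) with hL
  have hLr : (0 : ℝ) < (L : ℕ) := by rw [hL]; positivity
  have hLc : ((L : ℕ) : ℂ) ≠ 0 := by exact_mod_cast hLr.ne'
  have one : (∑ j ∈ range L, r j) / L = 1 := by
    have := Ex_one (D := n + 1) (Q := n + 2) (by omega) (by omega) (zz n x y)
    simp only [Ex, hr, one_mul, ← hL] at this
    exact_mod_cast this
  have mom : ∀ (J : Fin n → Fin (n + n)) (hJ : Function.Injective J) (w : ℂ) (hw1 : ‖w‖ ≤ 1)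
      (hw : ∀ k, zz n x y (J k) = w),
      (∑ j ∈ range L, ‖av (n + 2) (n + n) n J j - w‖ ^ 2 * r j) / L ≤ 2 / n := by
    intro J hJ w hw1 hw
    have h1 := second_moment (D := n + 1) (Q := n + 2) (by omega) (by omega) hn (zz n x y) J hJ hw
    have h2 : ∀ j, (av (n + 2) (n + n) n J j - w) * conj (av (n + 2) (n + n) n J j - w)
        = ((‖av (n + 2) (n + n) n J j - w‖ ^ 2 : ℝ) : ℂ) := fun j => by
      rw [Complex.mul_conj, Complex.normSq_eq_norm_sq]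
    simp only [Ex, hr, h2, ← hL] at h1
    have h3 : (∑ j ∈ range L, ‖av (n + 2) (n + n) n J j - w‖ ^ 2 * r j) / L
        = (1 : ℝ) / n + (1 - (1 : ℝ) / n) * ((((n + 1 : ℕ) : ℝ) - 1) / ((n + 1 : ℕ) : ℝ)) ^ 2
          * ‖w‖ ^ 2 - 2 * ((((n + 1 : ℕ) : ℝ) - 1) / ((n + 1 : ℕ) : ℝ)) * ‖w‖ ^ 2 + ‖w‖ ^ 2 := by
      exact_mod_cast h1
    rw [h3]
    have hρ : (((n + 1 : ℕ) : ℝ) - 1) / ((n + 1 : ℕ) : ℝ) = 1 - 1 / (n + 1) := by
      push_cast; field_simp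
    rw [hρ]
    have hw2 : ‖w‖ ^ 2 ≤ 1 := by nlinarith [norm_nonneg w]
    have hw3 : 0 ≤ ‖w‖ ^ 2 := by positivity
    have k1 : (1 : ℝ) / (n + 1) ≤ 1 / n := one_div_le_one_div_of_le hnr (by linarith)
    have k2 : (0 : ℝ) < 1 / (n + 1) := by positivity
    have k3 : (0 : ℝ) < 1 / n := by positivity
    have k4 : (1 : ℝ) / (n + 1) ≤ 1 := by
      rw [div_le_one (by positivity)]; linarith
    set t : ℝ := 1 / (n + 1)
    have e1 : (1 : ℝ) / n + (1 - (1 : ℝ) / n) * (1 - t) ^ 2 * ‖w‖ ^ 2 - 2 * (1 - t) * ‖w‖ ^ 2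
        + ‖w‖ ^ 2 = 1 / n + t ^ 2 * ‖w‖ ^ 2 - 1 / n * ((1 - t) ^ 2 * ‖w‖ ^ 2) := by ring
    rw [e1]
    have e2 : t ^ 2 * ‖w‖ ^ 2 ≤ 1 / n := by nlinarith
    have e3 : 0 ≤ 1 / (n : ℝ) * ((1 - t) ^ 2 * ‖w‖ ^ 2) := by positivity
    have e4 : (2 : ℝ) / n = 1 / n + 1 / n := by ring
    linarith
  have mA := mom (Fin.castAdd n) (Fin.castAdd_injective n n) x hx (fun k => by
    rw [zz, Fin.append_left])
  have mB := mom (Fin.natAdd n) (Fin.natAdd_injective n n) y hy (fun k => by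
    rw [zz, Fin.append_right])
  -- pointwise
  have pt : ∀ j, ‖F (avA n j) (avB n j) - F x y‖
      ≤ ε + 2 / δ ^ 2 * (‖avA n j - x‖ ^ 2 + ‖avB n j - y‖ ^ 2) := by
    intro j
    have hp : 0 ≤ 2 / δ ^ 2 * (‖avA n j - x‖ ^ 2 + ‖avB n j - y‖ ^ 2) := by positivity
    by_cases h1 : ‖avA n j - x‖ ≤ δ
    · by_cases h2 : ‖avB n j - y‖ ≤ δ
      · linarith [h _ _ h1 h2]
      · push Not at h2
        have h3 : ‖F (avA n j) (avB n j) - F x y‖ ≤ 2 := by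
          refine (norm_sub_le _ _).trans ?_
          linarith [hF.le_one (x := avA n j) (y := avB n j) (av_le _ _ _ _ _) (av_le _ _ _ _ _),
            hF.le_one hx hy]
        have h4 : 1 ≤ ‖avB n j - y‖ ^ 2 / δ ^ 2 := by
          rw [le_div_iff₀ (by positivity), one_mul]
          exact pow_le_pow_left₀ hδ.le h2.le 2
        have h5 : 0 ≤ ‖avA n j - x‖ ^ 2 / δ ^ 2 := by positivity
        have h6 : 2 / δ ^ 2 * (‖avA n j - x‖ ^ 2 + ‖avB n j - y‖ ^ 2)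
            = 2 * (‖avA n j - x‖ ^ 2 / δ ^ 2) + 2 * (‖avB n j - y‖ ^ 2 / δ ^ 2) := by ring
        rw [h6]; linarith
    · push Not at h1
      have h3 : ‖F (avA n j) (avB n j) - F x y‖ ≤ 2 := by
        refine (norm_sub_le _ _).trans ?_
        linarith [hF.le_one (x := avA n j) (y := avB n j) (av_le _ _ _ _ _) (av_le _ _ _ _ _),
          hF.le_one hx hy]
      have h4 : 1 ≤ ‖avA n j - x‖ ^ 2 / δ ^ 2 := by
        rw [le_div_iff₀ (by positivity), one_mul]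
        exact pow_le_pow_left₀ hδ.le h1.le 2
      have h5 : 0 ≤ ‖avB n j - y‖ ^ 2 / δ ^ 2 := by positivity
      have h6 : 2 / δ ^ 2 * (‖avA n j - x‖ ^ 2 + ‖avB n j - y‖ ^ 2)
          = 2 * (‖avA n j - x‖ ^ 2 / δ ^ 2) + 2 * (‖avB n j - y‖ ^ 2 / δ ^ 2) := by ring
      rw [h6]; linarith
  have e1 : Ex (n + 1) (n + 2) (zz n x y) (fun j => F (avA n j) (avB n j)) - F x y
      = (∑ j ∈ range L, (F (avA n j) (avB n j) - F x y) * r j) / L := by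
    have h1 : F x y = F x y * ((∑ j ∈ range L, (r j : ℂ)) / L) := by
      have : (∑ j ∈ range L, (r j : ℂ)) / L = 1 := by exact_mod_cast one
      rw [this, mul_one]
    rw [Ex, ← hL]
    conv_lhs => rw [h1]
    simp only [hr, sub_mul, Finset.sum_sub_distrib, sub_div, ← Finset.mul_sum, mul_div_assoc]
  rw [e1, norm_div, Complex.norm_natCast]
  have e2 : ‖∑ j ∈ range L, (F (avA n j) (avB n j) - F x y) * r j‖
      ≤ ∑ j ∈ range L, (ε + 2 / δ ^ 2 * (‖avA n j - x‖ ^ 2 + ‖avB n j - y‖ ^ 2)) * r j := by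
    refine (norm_sum_le _ _).trans (Finset.sum_le_sum fun j _ => ?_)
    rw [norm_mul, Complex.norm_real, Real.norm_of_nonneg (hr0 j)]
    exact mul_le_mul_of_nonneg_right (pt j) (hr0 j)
  have e3 : (∑ j ∈ range L, (ε + 2 / δ ^ 2 * (‖avA n j - x‖ ^ 2 + ‖avB n j - y‖ ^ 2)) * r j) / L
      = ε * ((∑ j ∈ range L, r j) / L) + 2 / δ ^ 2 * ((∑ j ∈ range L, ‖avA n j - x‖ ^ 2 * r j) / L
        + (∑ j ∈ range L, ‖avB n j - y‖ ^ 2 * r j) / L) := by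
    rw [← add_div, ← Finset.sum_add_distrib, mul_div_assoc', mul_div_assoc', ← add_div,
      Finset.mul_sum, Finset.mul_sum, ← Finset.sum_add_distrib]
    congr 1
    exact Finset.sum_congr rfl fun j _ => by ring
  refine (div_le_div_of_nonneg_right e2 hLr.le).trans ?_
  rw [e3, one, mul_one]
  have e4 : 2 / δ ^ 2 * ((∑ j ∈ range L, ‖avA n j - x‖ ^ 2 * r j) / L
        + (∑ j ∈ range L, ‖avB n j - y‖ ^ 2 * r j) / L) ≤ 2 / δ ^ 2 * (2 / n + 2 / n) :=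
    mul_le_mul_of_nonneg_left (add_le_add mA mB) (by positivity)
  have e5 : 2 / δ ^ 2 * (2 / (n : ℝ) + 2 / n) = 8 / δ ^ 2 / n := by ring
  linarith

/-- The coefficients of the approximations. -/
lemma Adm.coeffs {F : ℂ → ℂ → ℂ} (hF : Adm F) {n : ℕ} (hn : 0 < n) :
    ∃ a : ℕ × ℕ × ℕ × ℕ → ℝ, (∀ i, 0 ≤ a i) ∧ (∀ s : Finset (ℕ × ℕ × ℕ × ℕ), ∑ i ∈ s, a i ≤ 1) ∧
      ∀ x y : ℂ, HasSum (fun i => (a i : ℂ) * mo x y i)
        (Ex (n + 1) (n + 2) (zz n x y) (fun j => F (avA n j) (avB n j))) := by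
  classical
  obtain ⟨C, hC0, hC⟩ := hF.poly hn
  set a : ℕ × ℕ × ℕ × ℕ → ℝ := fun i => ∑ τ ∈ ind (n + 1) (n + n), if i = expo n τ then C τ else 0
    with ha
  have ha0 : ∀ i, 0 ≤ a i := fun i => Finset.sum_nonneg fun τ _ => by
    split_ifs
    · exact hC0 τ
    · exact le_rfl
  have hsum : ∀ x y : ℂ, HasSum (fun i => (a i : ℂ) * mo x y i)
        (Ex (n + 1) (n + 2) (zz n x y) (fun j => F (avA n j) (avB n j))) := by
    intro x y
    rw [hC]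
    have h1 : (fun i => (a i : ℂ) * mo x y i) = fun i => ∑ τ ∈ ind (n + 1) (n + n),
        if i = expo n τ then (C τ : ℂ) * mo x y (expo n τ) else 0 := by
      funext i
      rw [ha]
      push_cast
      rw [Finset.sum_mul]
      refine Finset.sum_congr rfl fun τ _ => ?_
      by_cases h : i = expo n τ
      · rw [if_pos h, if_pos h, h]
      · rw [if_neg h, if_neg h]; simp
    rw [h1]
    exact hasSum_sum fun τ _ => hasSum_ite_eq _ _
  refine ⟨a, ha0, fun s => ?_, hsum⟩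
  have h2 := hsum 1 1
  have h3 : ∀ i, (a i : ℂ) * mo 1 1 i = ((a i : ℝ) : ℂ) := fun i => by simp [mo]
  simp only [h3] at h2
  have h4 : ‖Ex (n + 1) (n + 2) (zz n 1 1) (fun j => F (avA n j) (avB n j))‖ ≤ 1 := by
    have hr := fun j => riesz_nonneg (n + 1) (n + 2)
      (zz_le (n := n) (x := 1) (y := 1) (by simp) (by simp)) j
    choose r hr0 hr using hr
    have one := Ex_one (D := n + 1) (Q := n + 2) (by omega) (by omega) (zz n 1 1)
    simp only [Ex, hr, one_mul] at one ⊢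
    have hLr : (0 : ℝ) < (((n + 2) ^ (n + n) : ℕ) : ℝ) := by positivity
    rw [norm_div, Complex.norm_natCast]
    have one' : (∑ j ∈ range ((n + 2) ^ (n + n)), r j) / (((n + 2) ^ (n + n) : ℕ) : ℝ) = 1 := by
      exact_mod_cast one
    rw [← one']
    refine div_le_div_of_nonneg_right ?_ hLr.le
    refine (norm_sum_le _ _).trans (Finset.sum_le_sum fun j _ => ?_)
    rw [norm_mul, Complex.norm_real, Real.norm_of_nonneg (hr0 j)]
    exact mul_le_of_le_one_left (hr0 j) (hF.le_one (av_le _ _ _ _ _) (av_le _ _ _ _ _))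
  have h5 : Summable a := by
    have := h2.summable
    exact_mod_cast this
  have h6 : ((∑' i, a i : ℝ) : ℂ) = Ex (n + 1) (n + 2) (zz n 1 1)
      (fun j => F (avA n j) (avB n j)) := by
    rw [Complex.ofReal_tsum]; exact h2.tsum_eq
  rw [← h6, Complex.norm_real, Real.norm_of_nonneg (tsum_nonneg ha0)] at h4
  exact (h5.sum_le_tsum s fun i _ => ha0 i).trans h4

lemma summable_bound {x y : ℂ} (hx : ‖x‖ < 1) (hy : ‖y‖ < 1) :
    Summable fun i : ℕ × ℕ × ℕ × ℕ => ‖mo x y i‖ := by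
  have gx := summable_geometric_of_lt_one (norm_nonneg x) hx
  have gy := summable_geometric_of_lt_one (norm_nonneg y) hy
  have h1 := gy.mul_of_nonneg gy (fun _ => by positivity) (fun _ => by positivity)
  have h2 := gx.mul_of_nonneg h1 (fun _ => by positivity) (fun _ => by positivity)
  have h3 := gx.mul_of_nonneg h2 (fun _ => by positivity) (fun _ => by positivity)
  refine h3.congr fun i => ?_
  simp only [mo, norm_mul, norm_pow, RCLike.norm_conj]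
  ring

/-- The series on the open bidisc. -/
lemma Adm.series {F : ℂ → ℂ → ℂ} (hF : Adm F) :
    ∃ a : ℕ × ℕ × ℕ × ℕ → ℝ, (∀ i, 0 ≤ a i) ∧ Summable a ∧
      ∀ x y : ℂ, ‖x‖ < 1 → ‖y‖ < 1 → ∑' i, (a i : ℂ) * mo x y i = F x y := by
  have h1 := fun n : ℕ => hF.coeffs (n := n + 1) (by omega)
  choose A hA0 hA1 hA using h1
  have hK : IsCompact (Set.pi (Set.univ : Set (ℕ × ℕ × ℕ × ℕ)) fun _ => Set.Icc (0 : ℝ) 1) :=
    isCompact_univ_pi fun _ => isCompact_Icc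
  have hmem : ∀ n, A n ∈ Set.pi (Set.univ : Set (ℕ × ℕ × ℕ × ℕ)) fun _ => Set.Icc (0 : ℝ) 1 := by
    intro n i _
    refine ⟨hA0 n i, ?_⟩
    have := hA1 n {i}
    simpa using this
  obtain ⟨a, ha, θ, hθ, hlim⟩ := hK.tendsto_subseq hmem
  have hc : ∀ i, Filter.Tendsto (fun n => A (θ n) i) Filter.atTop (nhds (a i)) := fun i =>
    (tendsto_pi_nhds.mp hlim) i
  have ha0 : ∀ i, 0 ≤ a i := fun i => (ha i (Set.mem_univ _)).1
  have hs : ∀ s : Finset (ℕ × ℕ × ℕ × ℕ), ∑ i ∈ s, a i ≤ 1 := fun s =>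
    le_of_tendsto (tendsto_finsetSum s fun i _ => hc i) (Filter.Eventually.of_forall fun n =>
      hA1 _ s)
  have hsum : Summable a := summable_of_sum_le ha0 hs
  refine ⟨a, ha0, hsum, fun x y hx hy => ?_⟩
  -- the limit of the values
  have t1 : Filter.Tendsto (fun n => ∑' i, ((A (θ n) i : ℝ) : ℂ) * mo x y i) Filter.atTop
      (nhds (∑' i, (a i : ℂ) * mo x y i)) := by
    refine tendsto_tsum_of_dominated_convergence (summable_bound hx hy) (fun i => ?_)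
      (Filter.Eventually.of_forall fun n i => ?_)
    · exact ((Complex.continuous_ofReal.tendsto _).comp (hc i)).mul_const _
    · rw [norm_mul, Complex.norm_real, Real.norm_of_nonneg (hA0 _ i)]
      have : A (θ n) i ≤ 1 := by simpa using hA1 (θ n) {i}
      exact mul_le_of_le_one_left (norm_nonneg _) this
  have t2 : Filter.Tendsto (fun n => ∑' i, ((A (θ n) i : ℝ) : ℂ) * mo x y i) Filter.atTop
      (nhds (F x y)) := by
    rw [Metric.tendsto_atTop]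
    intro ε hε
    obtain ⟨δ, hδ, hcont⟩ := hF.cont hx hy (half_pos hε)
    obtain ⟨N, hN⟩ := exists_nat_gt (8 / δ ^ 2 / (ε / 2))
    refine ⟨N, fun n hn => ?_⟩
    rw [(hA (θ n) x y).tsum_eq, dist_eq_norm]
    have h2 := hF.approx (n := θ n + 1) (by omega) hx.le hy.le (half_pos hε).le hδ hcont
    refine h2.trans_lt ?_
    have h3 : (N : ℝ) ≤ ((θ n + 1 : ℕ) : ℝ) := by
      have := hθ.id_le n
      simp only [id] at this
      exact_mod_cast (by omega : N ≤ θ n + 1)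
    have h4 : 8 / δ ^ 2 / ((θ n + 1 : ℕ) : ℝ) < ε / 2 := by
      rw [div_lt_iff₀ (by positivity)]
      rw [div_lt_iff₀ (half_pos hε)] at hN
      have : (N : ℝ) * (ε / 2) ≤ ((θ n + 1 : ℕ) : ℝ) * (ε / 2) :=
        mul_le_mul_of_nonneg_right h3 (half_pos hε).le
      linarith
    linarith
  exact tendsto_nhds_unique t1 t2

/-- The series on the closed bidisc. -/
lemma Adm.series' {F : ℂ → ℂ → ℂ} (hF : Adm F) :
    ∃ a : ℕ × ℕ × ℕ × ℕ → ℝ, (∀ i, 0 ≤ a i) ∧ HasSum a 1 ∧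
      ∀ x y : ℂ, ‖x‖ ≤ 1 → ‖y‖ ≤ 1 → HasSum (fun i => (a i : ℂ) * mo x y i) (F x y) := by
  obtain ⟨a, ha0, hs, h⟩ := hF.series
  have hb : ∀ x y : ℂ, ‖x‖ ≤ 1 → ‖y‖ ≤ 1 → ∀ i, ‖(a i : ℂ) * mo x y i‖ ≤ a i := by
    intro x y hx hy i
    rw [norm_mul, Complex.norm_real, Real.norm_of_nonneg (ha0 i)]
    exact mul_le_of_le_one_right (ha0 i) (norm_mo_le hx hy i)
  have hH : ∀ x y : ℂ, ‖x‖ ≤ 1 → ‖y‖ ≤ 1 → HasSum (fun i => (a i : ℂ) * mo x y i) (F x y) := by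
    intro x y hx hy
    obtain ⟨φ, hφ, h1, h1'⟩ := exists_pt hx
    obtain ⟨ψ, hψ, h2, h2'⟩ := exists_pt hy
    have hf := (hF _ _ hφ hψ).continuous
    have hg : Continuous fun ξ => ∑' i, (a i : ℂ) * mo (φ ξ) (ψ ξ) i := by
      refine continuous_tsum (fun i => ?_) hs (fun i ξ => hb _ _ (hφ.norm_le ξ) (hψ.norm_le ξ) i)
      have c1 := hφ.continuous
      have c2 := hψ.continuous
      have c3 : Continuous fun ξ => conj (φ ξ) := Complex.continuous_conj.comp c1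
      have c4 : Continuous fun ξ => conj (ψ ξ) := Complex.continuous_conj.comp c2
      simp only [mo]
      fun_prop
    have hev : (fun ξ => F (φ ξ) (ψ ξ)) =ᶠ[nhdsWithin (2 * π) {2 * π}ᶜ]
        fun ξ => ∑' i, (a i : ℂ) * mo (φ ξ) (ψ ξ) i := by
      have hball : Metric.ball (2 * π) 1 ∈ nhds (2 * π) := Metric.ball_mem_nhds _ one_pos
      filter_upwards [self_mem_nhdsWithin, mem_nhdsWithin_of_mem_nhds hball] with ξ hne hξ
      rw [Metric.mem_ball, Real.dist_eq] at hξ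
      exact (h _ _ (h1' ξ hne hξ) (h2' ξ hne hξ)).symm
    have l1 : Filter.Tendsto (fun ξ => F (φ ξ) (ψ ξ)) (nhdsWithin (2 * π) {2 * π}ᶜ)
        (nhds (F (φ (2 * π)) (ψ (2 * π)))) := (hf.tendsto _).mono_left nhdsWithin_le_nhds
    have l2 : Filter.Tendsto (fun ξ => ∑' i, (a i : ℂ) * mo (φ ξ) (ψ ξ) i)
        (nhdsWithin (2 * π) {2 * π}ᶜ) (nhds (∑' i, (a i : ℂ) * mo (φ (2 * π)) (ψ (2 * π)) i)) :=
      (hg.tendsto _).mono_left nhdsWithin_le_nhds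
    have heq := tendsto_nhds_unique (l1.congr' hev) l2
    rw [h1, h2] at heq
    rw [heq]
    exact (Summable.of_norm_bounded hs (hb x y hx hy)).hasSum
  refine ⟨a, ha0, ?_, hH⟩
  have h1 := hH 1 1 (by simp) (by simp)
  have h3 : ∀ i, (a i : ℂ) * mo 1 1 i = ((a i : ℝ) : ℂ) := fun i => by simp [mo]
  simp only [h3, hF.one] at h1
  exact Complex.hasSum_ofReal.mp (by rw [Complex.ofReal_one]; exact h1)

/-- The converse. -/
lemma adm_of_series {F : ℂ → ℂ → ℂ} {a : ℕ × ℕ × ℕ × ℕ → ℝ} (ha : ∀ i, 0 ≤ a i)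
    (hs : HasSum a 1)
    (h : ∀ x y : ℂ, ‖x‖ ≤ 1 → ‖y‖ ≤ 1 → HasSum (fun i => (a i : ℂ) * mo x y i) (F x y)) :
    Adm F := by
  intro φ ψ hφ hψ
  obtain ⟨χ, hχ, h1⟩ := isCharFn_mix ha hs (φ := fun i ξ => mo (φ ξ) (ψ ξ) i) (fun i =>
    (((hφ.pow i.1).mul (hφ.conj.pow i.2.1)).mul (hψ.pow i.2.2.1)).mul (hψ.conj.pow i.2.2.2))
  convert hχ using 1
  funext ξ
  exact (h _ _ (hφ.norm_le ξ) (hψ.norm_le ξ)).unique (h1 ξ)

theorem adm_iff (F : ℂ → ℂ → ℂ) :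
    Adm F ↔ ∃ a : ℕ × ℕ × ℕ × ℕ → ℝ, (∀ i, 0 ≤ a i) ∧ HasSum a 1 ∧
      ∀ x y : ℂ, ‖x‖ ≤ 1 → ‖y‖ ≤ 1 → HasSum (fun i => (a i : ℂ) * mo x y i) (F x y) :=
  ⟨fun h => h.series', fun ⟨_, ha, hs, h⟩ => adm_of_series ha hs h⟩

end H970F
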